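import Pool.Agent.W2helper44.PT.Stm

/-! Piece `P_AVG` of the project PT. -/

set_option autoImplicit false

namespace Pool.Agent.W2helper71.PT

open Pool.Agent.W2helper44.PT

/-- the average over a smaller subgroup -/
theorem avg_le {I : Type} [Group I] (J J₁ : Subgroup I) [J.FiniteIndex] [J₁.FiniteIndex]
    (hJ : J ≤ J₁) (c : I → ℚ) (hc : ∀ x, ∀ y ∈ J₁, c (x * y) = c x) :
    (Nat.card (I ⧸ J) : ℚ)⁻¹ * ∑ᶠ q : I ⧸ J, c q.out =
      (Nat.card (I ⧸ J₁) : ℚ)⁻¹ * ∑ᶠ q : I ⧸ J₁, c q.out := by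
  classical
  have : Finite (I ⧸ J) := inferInstance
  have : Finite (I ⧸ J₁) := inferInstance
  let e := Subgroup.quotientEquivProdOfLE hJ
  have : Finite ((I ⧸ J₁) × (J₁ ⧸ J.subgroupOf J₁)) := Finite.of_equiv _ e
  have : Nonempty (I ⧸ J₁) := ⟨QuotientGroup.mk 1⟩
  have : Finite (J₁ ⧸ J.subgroupOf J₁) := Finite.prod_right (I ⧸ J₁)
  have : Fintype (I ⧸ J) := Fintype.ofFinite _
  have : Fintype (I ⧸ J₁) := Fintype.ofFinite _
  have : Fintype (J₁ ⧸ J.subgroupOf J₁) := Fintype.ofFinite _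
  have hval : ∀ q : I ⧸ J, c q.out = c ((e q).1).out := by
    intro q
    have h1 : (e q).1 = (QuotientGroup.mk q.out : I ⧸ J₁) := by
      conv_lhs => rw [← QuotientGroup.out_eq' q]
      rfl
    rw [h1]
    obtain ⟨y, hy⟩ := QuotientGroup.mk_out_eq_mul J₁ q.out
    rw [hy]
    exact (hc _ _ y.2).symm
  rw [finsum_eq_sum_of_fintype, finsum_eq_sum_of_fintype, Finset.sum_congr rfl fun q _ => hval q,
    Equiv.sum_comp e (fun p => c p.1.out), Fintype.sum_prod_type]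
  simp only [Finset.sum_const, Finset.card_univ, nsmul_eq_mul]
  rw [← Finset.mul_sum, Nat.card_congr e, Nat.card_prod, Nat.card_eq_fintype_card,
    Nat.card_eq_fintype_card]
  have h2 : (Fintype.card (J₁ ⧸ J.subgroupOf J₁) : ℚ) ≠ 0 := by
    have : 0 < Fintype.card (J₁ ⧸ J.subgroupOf J₁) :=
      Fintype.card_pos_iff.2 ⟨QuotientGroup.mk 1⟩
    exact_mod_cast this.ne'
  push_cast
  rw [mul_inv, mul_assoc, ← mul_assoc (Fintype.card (J₁ ⧸ J.subgroupOf J₁) : ℚ)⁻¹,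
    inv_mul_cancel₀ h2, one_mul]

theorem p_avg : P_AVG := by
  intro I _ J₁ J₂ _ _ c h1 h2
  rw [← avg_le (J₁ ⊓ J₂) J₁ inf_le_left c h1, avg_le (J₁ ⊓ J₂) J₂ inf_le_right c h2]

end Pool.Agent.W2helper71.PT
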