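import Pool.Agent.W2helper44.PT.Stm

/-! Piece `P_LOG` of the project PT. -/

set_option autoImplicit false

namespace Pool.Agent.W2helper71.PT

open Polynomial Pool.Agent.W2helper44.PT

variable {k : Type} [Field k] [CharZero k]

/-- the truncated series of `log (1 + X) / X` -/
noncomputable def Ul (k : Type) [Field k] (m : ℕ) : k[X] :=
  ∑ i ∈ Finset.range (m + 1), C ((-1) ^ i / ((i : k) + 1)) * X ^ i

/-- the truncated logarithm -/
noncomputable def Ll (k : Type) [Field k] (m : ℕ) : k[X] := X * Ul k m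

omit [CharZero k] in
theorem Ll_eq (m : ℕ) : Ll k m =
    ∑ i ∈ Finset.range (m + 1), C ((-1) ^ i / ((i : k) + 1)) * X ^ (i + 1) := by
  unfold Ll Ul
  rw [Finset.mul_sum]
  exact Finset.sum_congr rfl fun i _ => by ring

theorem deriv_Ll (m : ℕ) : derivative (Ll k m) = ∑ i ∈ Finset.range (m + 1), (-X) ^ i := by
  rw [Ll_eq, derivative_sum]
  refine Finset.sum_congr rfl fun i _ => ?_
  have hi : ((i : k) + 1) ≠ 0 := by exact_mod_cast Nat.succ_ne_zero i
  rw [derivative_C_mul_X_pow, Nat.add_sub_cancel]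
  push_cast
  rw [div_mul_cancel₀ _ hi, neg_pow (X : k[X]), map_pow, map_neg, map_one]

theorem deriv_Ll_mul (m : ℕ) :
    (1 + X) * derivative (Ll k m) = 1 - (-X) ^ (m + 1) := by
  have h := mul_neg_geom_sum (-X : k[X]) (m + 1)
  rw [deriv_Ll, ← h]
  ring

/-- a polynomial without constant term and with derivative divisible by `X ^ (m + 1)` -/
theorem dvd_of_deriv {D : k[X]} {m : ℕ} (h0 : D.coeff 0 = 0) (h : X ^ (m + 1) ∣ derivative D) :
    X ^ (m + 1) ∣ D := by
  rw [X_pow_dvd_iff] at h ⊢
  intro d hd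
  rcases Nat.eq_zero_or_pos d with rfl | hd0
  · exact h0
  · obtain ⟨e, rfl⟩ : ∃ e, d = e + 1 := ⟨d - 1, by omega⟩
    have h1 := h e (by omega)
    rw [coeff_derivative] at h1
    have h2 : ((e : k) + 1) ≠ 0 := by exact_mod_cast Nat.succ_ne_zero e
    rcases mul_eq_zero.1 h1 with h3 | h3
    · exact h3
    · exact absurd h3 h2

theorem Ll_pow (m Q : ℕ) :
    X ^ (m + 1) ∣ (Ll k m).comp ((1 + X) ^ Q - 1) - C (Q : k) * Ll k m := by
  set Y : k[X] := (1 + X) ^ Q - 1 with hY
  have hXY : X ∣ Y := by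
    have h := sub_dvd_pow_sub_pow (1 + X : k[X]) 1 Q
    rw [one_pow, add_sub_cancel_left] at h
    exact h
  apply dvd_of_deriv
  · rw [coeff_sub, coeff_zero_eq_eval_zero, coeff_zero_eq_eval_zero, eval_comp, eval_mul]
    have h1 : eval 0 (Ll k m) = 0 := by
      unfold Ll
      rw [eval_mul, eval_X, zero_mul]
    have h2 : eval 0 Y = 0 := by
      rw [hY]
      simp
    rw [h2, h1, mul_zero, sub_zero]
  · have hcop : IsCoprime (X ^ (m + 1) : k[X]) (1 + X) := by
      apply IsCoprime.pow_left
      exact ⟨-1, 1, by ring⟩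
    refine hcop.dvd_of_dvd_mul_left ?_
    have hdY : (1 + X) * derivative Y = C (Q : k) * (1 + Y) := by
      rw [hY, derivative_sub, derivative_one, sub_zero, derivative_pow, derivative_add,
        derivative_one, derivative_X, zero_add, mul_one]
      rcases Nat.eq_zero_or_pos Q with rfl | hQ
      · simp
      · obtain ⟨q, rfl⟩ : ∃ q, Q = q + 1 := ⟨Q - 1, by omega⟩
        rw [Nat.add_sub_cancel]
        push_cast
        ring
    have hcomp : (1 + Y) * (derivative (Ll k m)).comp Y = 1 - (-Y) ^ (m + 1) := by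
      have h := congrArg (fun p : k[X] => p.comp Y) (deriv_Ll_mul (k := k) m)
      simpa only [mul_comp, add_comp, one_comp, X_comp, sub_comp, pow_comp, neg_comp] using h
    have h2 : (1 + X) * derivative ((Ll k m).comp Y - C (Q : k) * Ll k m) =
        C (Q : k) * ((-X) ^ (m + 1) - (-Y) ^ (m + 1)) := by
      rw [derivative_sub, derivative_comp, derivative_C_mul]
      calc (1 + X) * (derivative Y * (derivative (Ll k m)).comp Y -
            C (Q : k) * derivative (Ll k m))
          = ((1 + X) * derivative Y) * (derivative (Ll k m)).comp Y -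
            C (Q : k) * ((1 + X) * derivative (Ll k m)) := by ring
        _ = C (Q : k) * ((1 + Y) * (derivative (Ll k m)).comp Y) -
            C (Q : k) * ((1 + X) * derivative (Ll k m)) := by rw [hdY]; ring
        _ = _ := by rw [hcomp, deriv_Ll_mul]; ring
    rw [h2]
    apply Dvd.dvd.mul_left
    apply dvd_sub
    · rw [neg_pow]
      exact Dvd.intro_left _ rfl
    · rw [neg_pow]
      exact Dvd.dvd.mul_left (pow_dvd_pow_of_dvd hXY _) _

/-- conjugation as a homomorphism of algebras -/
def conjHom {R : Type} [Ring R] [Algebra k R] (s s' : R) (h1 : s * s' = 1) (h2 : s' * s = 1) :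
    R →ₐ[k] R where
  toFun x := s * x * s'
  map_one' := by rw [mul_one, h1]
  map_mul' x y := by
    calc s * (x * y) * s' = s * x * (1 * (y * s')) := by rw [one_mul]; simp only [mul_assoc]
      _ = s * x * (s' * s * (y * s')) := by rw [h2]
      _ = s * x * s' * (s * y * s') := by simp only [mul_assoc]
  map_zero' := by rw [mul_zero, zero_mul]
  map_add' x y := by rw [mul_add, add_mul]
  commutes' r := by
    rw [← Algebra.commutes, mul_assoc, h1, mul_one]

theorem p_log : P_LOG := by
  intro k _ _ n t ht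
  obtain ⟨m, hm⟩ := ht
  have hm1 : (t - 1) ^ (m + 1) = 0 := by rw [pow_succ, hm, zero_mul]
  have hteq : t = aeval (t - 1) (1 + X : k[X]) := by
    rw [map_add, map_one, aeval_X]
    exact (add_sub_cancel 1 t).symm
  set u : Matrix (Fin n) (Fin n) k := aeval (t - 1) (Ul k m) with hu
  have hN : aeval (t - 1) (Ll k m) = (t - 1) * u := by
    unfold Ll
    rw [map_mul, aeval_X]
  -- `u` is a unit
  have hunit : IsUnit u := by
    obtain ⟨V, hV⟩ : ∃ V : k[X], Ul k m = X * V + 1 := by
      have h1 : X ∣ Ul k m - 1 := by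
        rw [X_dvd_iff, coeff_sub, coeff_one_zero]
        unfold Ul
        rw [finsetSum_coeff, Finset.sum_eq_single 0]
        · simp
        · intro i _ hi
          rw [coeff_C_mul_X_pow, if_neg (Ne.symm hi)]
        · intro h
          exact absurd (Finset.mem_range.2 (Nat.succ_pos m)) h
      obtain ⟨V, hV⟩ := h1
      exact ⟨V, by rw [← hV]; ring⟩
    rw [hu, hV, map_add, map_mul, aeval_X, map_one]
    apply IsNilpotent.isUnit_add_one
    have hc : Commute (t - 1) (aeval (t - 1) V) := by
      have h := Commute.map (Commute.all (X : k[X]) V) (aeval (t - 1) : k[X] →ₐ[k] _)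
      rwa [aeval_X] at h
    exact hc.isNilpotent_mul_right ⟨m, hm⟩
  obtain ⟨w, hw⟩ := hunit
  refine ⟨(t - 1) * u, u, ↑w⁻¹, rfl, ?_, ?_, ?_, ?_⟩
  · rw [← hw, Units.mul_inv]
  · rw [← hw, Units.inv_mul]
  · have h := Commute.map (Commute.all (1 + X : k[X]) (Ul k m)) (aeval (t - 1) : k[X] →ₐ[k] _)
    rwa [← hteq] at h
  · intro s s' Q h1 h2 h3
    rw [← hN]
    have h4 : s * aeval (t - 1) (Ll k m) * s' = aeval (s * (t - 1) * s') (Ll k m) :=
      (aeval_algHom_apply (conjHom (k := k) s s' h1 h2) (t - 1) (Ll k m)).symm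
    have h5 : s * (t - 1) * s' = t ^ Q - 1 := by
      rw [mul_sub, sub_mul, mul_one, h1, h3]
    have h6 : (t ^ Q - 1 : Matrix (Fin n) (Fin n) k) =
        aeval (t - 1) ((1 + X) ^ Q - 1 : k[X]) := by
      rw [map_sub, map_pow, map_one, ← hteq]
    obtain ⟨W, hW⟩ := Ll_pow (k := k) m Q
    have h7 := congrArg (aeval (t - 1)) hW
    rw [map_sub, map_mul, map_mul, map_pow, aeval_X, hm1, zero_mul, aeval_comp, ← h6, aeval_C,
      Algebra.algebraMap_eq_smul_one, smul_mul_assoc, one_mul] at h7
    rw [h4, h5]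
    exact sub_eq_zero.1 h7

end Pool.Agent.W2helper71.PT
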